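import Pool.Agent.Y893.TD.Sum
import Pool.Agent.Y254.HK.FinalG

/-!
# Tube doubling in dimensions `n ≥ 4` with loss `δ ^ (-(n - 1) (1 - 1 / c))`
-/

set_option autoImplicit false

open MeasureTheory

namespace Pool.Agent.Results.MP_2ce96a_an.PowerLoss

/-- Let `n ≥ 4` and `c > 1` with `(n - 1) (c ^ 3 - 4 c + 2) + c (3 c - 1 - c ^ 2) > 0`.  There is `C`
such that for every `0 < δ < 1` and every set `S` of `δ`-tubes in `ℝ ^ n` (a tube is given by the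
centre `p.1` and the unit direction `p.2` of its axis), in arbitrary positions and directions, the
union of the 2-fold dilates has measure at most `C δ ^ (-(n - 1) (1 - 1 / c))` times the measure of
the union of the tubes. -/
theorem result (n : ℕ) (hn : 4 ≤ n) (c : ℝ) (hc1 : 1 < c)
    (hc : 0 < ((n : ℝ) - 1) * (c ^ 3 - 4 * c + 2) + c * (3 * c - 1 - c ^ 2)) :
    ∃ C : ℝ, 0 < C ∧ ∀ δ : ℝ, 0 < δ → δ < 1 →
      ∀ S : Set (EuclideanSpace ℝ (Fin n) × EuclideanSpace ℝ (Fin n)), (∀ p ∈ S, ‖p.2‖ = 1) →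
        volume (⋃ p ∈ S, {x : EuclideanSpace ℝ (Fin n) |
            ∃ t ∈ Set.Icc (-1 : ℝ) 1, dist x (p.1 + t • p.2) < 2 * δ}) ≤
          ENNReal.ofReal (C * δ ^ (-(((n : ℝ) - 1) * (1 - 1 / c)))) *
            volume (⋃ p ∈ S, {x : EuclideanSpace ℝ (Fin n) |
              ∃ t ∈ Set.Icc (-1 / 2 : ℝ) (1 / 2), dist x (p.1 + t • p.2) < δ}) := by
  obtain ⟨d, rfl⟩ : ∃ d, n = d + 1 := ⟨n - 1, by omega⟩
  have hd : 1 ≤ d := by omega
  have e1 : (((d + 1 : ℕ) : ℝ) - 1) = d := by push_cast; ring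
  rw [e1] at hc ⊢
  obtain ⟨c', h1, h2, h3⟩ := Pool.Agent.Y254HK.gg_open (d := d) hc1 hc
  exact Pool.Agent.Y893.TD.doubling
    (Pool.Agent.Y893.TD.layerD h1 h2 hd (Pool.Agent.Y254HK.dense_hk hd h1 h3))

end Pool.Agent.Results.MP_2ce96a_an.PowerLoss
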